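import Mathlib
import Pool.Agent.Helper62.NumIndex.Defs
import Pool.Agent.Helper62.NumIndex.EllOne

open Pool.Agent.Helper62.NumIndex

namespace Pool.Agent.Results.MP_aef148_an.NotInherited

/-- There is a real Banach space `X` with a closed infinite-dimensional subspace `Y` such that
`1 ∈ N(Y)` but `1 ∉ N(X)`. -/
theorem result : ∃ (X : Type) (_ : NormedAddCommGroup X) (_ : NormedSpace ℝ X)
    (_ : CompleteSpace X) (Y : Submodule ℝ X),
    IsClosed (Y : Set X) ∧ ¬ FiniteDimensional ℝ Y ∧
    (1 : ℝ) ∈ indexSet ℝ Y ∧ (1 : ℝ) ∉ indexSet ℝ X := by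
  let H : Type := lp (fun _ : ℝ => ℝ) 2
  let li : L1 →ₗᵢ[ℝ] (L1 × H) :=
    { toLinearMap := LinearMap.inl ℝ L1 H
      norm_map' := fun y => by
        show ‖((y, 0) : L1 × H)‖ = ‖y‖
        rw [Prod.norm_mk, norm_zero, max_eq_left (norm_nonneg _)] }
  refine ⟨L1 × H, inferInstance, inferInstance, inferInstance, LinearMap.range li.toLinearMap,
    ?_, ?_, ?_, ?_⟩
  · have := li.isometry.isClosedEmbedding.isClosed_range
    exact this
  · intro hfin
    apply not_finiteDimensional_L1
    exact Module.Finite.equiv li.equivRange.toLinearEquiv.symm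
  · exact ⟨L1, inferInstance, inferInstance, ⟨li.equivRange.toContinuousLinearEquiv⟩,
      numericalIndex_L1⟩
  · rintro ⟨Z, _, _, ⟨e⟩, hZ⟩
    have hb : Orthonormal ℝ (default : HilbertBasis ℝ ℝ H) := HilbertBasis.orthonormal _
    exact not_rankOneProp hb e (rankOneProp_of_index hZ)

end Pool.Agent.Results.MP_aef148_an.NotInherited
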